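import Mathlib

/-! Integral geometry in three dimensions: polar and cylinder coordinates, invariance of the
sphere measure, the hat-box formula of Archimedes. -/

set_option autoImplicit false

open MeasureTheory Set Metric
open scoped ENNReal RealInnerProductSpace Pointwise

namespace Pool.Agent.MP_187b32_an.Geo

abbrev E3 : Type := EuclideanSpace ℝ (Fin 3)

abbrev S2 : Type := sphere (0 : E3) 1

noncomputable abbrev sig : Measure S2 := (volume : Measure E3).toSphere

lemma norm_S2 (om : S2) : ‖(om : E3)‖ = 1 := by simp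

lemma inner_S2 (om : S2) : ⟪(om : E3), (om : E3)⟫ = 1 := by
  rw [real_inner_self_eq_norm_sq, norm_S2]; norm_num

lemma polar (F : E3 → ℝ≥0∞) (hF : Measurable F) :
    ∫⁻ x, F x = ∫⁻ om : S2, (∫⁻ r in Ioi (0 : ℝ), ENNReal.ofReal (r ^ 2) * F (r • (om : E3))) ∂sig := by
  have hmp := (volume : Measure E3).measurePreserving_homeomorphUnitSphereProd
  have hG : Measurable (fun p : S2 × Ioi (0 : ℝ) => F (p.2.1 • (p.1 : E3))) := by
    apply hF.comp
    fun_prop
  have h1 := hmp.lintegral_comp hG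
  have h2 : ∫⁻ x, F x = ∫⁻ x : ({(0 : E3)}ᶜ : Set E3), F x.1 ∂((volume : Measure E3).comap (↑)) := by
    rw [lintegral_subtype_comap (measurableSet_singleton _).compl F, restrict_compl_singleton]
  rw [h2]
  have h3 : ∀ x : ({(0 : E3)}ᶜ : Set E3),
      F (((homeomorphUnitSphereProd E3) x).2.1 • (((homeomorphUnitSphereProd E3) x).1 : E3))
        = F x.1 := by
    intro x
    have hx : ‖x.1‖ ≠ 0 := norm_ne_zero_iff.2 x.2
    simp [homeomorphUnitSphereProd_apply_snd_coe, homeomorphUnitSphereProd_apply_fst_coe,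
      smul_smul, mul_inv_cancel₀ hx]
  simp only [h3] at h1
  rw [h1, lintegral_prod _ hG.aemeasurable]
  refine lintegral_congr fun om => ?_
  have hd : Module.finrank ℝ E3 - 1 = 2 := by simp
  have hm : Measurable (fun y : Ioi (0 : ℝ) => F (y.1 • (om : E3))) := hF.comp (by fun_prop)
  rw [hd, Measure.volumeIoiPow]
  refine (lintegral_withDensity_eq_lintegral_mul _ (by fun_prop) hm).trans ?_
  exact lintegral_subtype_comap measurableSet_Ioi
    (fun r : ℝ => ENNReal.ofReal (r ^ 2) * F (r • (om : E3)))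

lemma exists_rot {a b : E3} (h : ‖a‖ = ‖b‖) : ∃ R : E3 ≃ₗᵢ[ℝ] E3, R a = b :=
  ⟨_, Submodule.reflection_sub h⟩

/-- The action of a linear isometry on the sphere. -/
noncomputable def sphMap (R : E3 ≃ₗᵢ[ℝ] E3) (om : S2) : S2 := ⟨R om, by simp⟩

@[simp] lemma coe_sphMap (R : E3 ≃ₗᵢ[ℝ] E3) (om : S2) : (sphMap R om : E3) = R om := rfl

lemma continuous_sphMap (R : E3 ≃ₗᵢ[ℝ] E3) : Continuous (sphMap R) :=
  Continuous.subtype_mk (R.continuous.comp continuous_subtype_val) _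

lemma measurePreserving_sphMap (R : E3 ≃ₗᵢ[ℝ] E3) : MeasurePreserving (sphMap R) sig sig := by
  refine ⟨(continuous_sphMap R).measurable, ?_⟩
  ext s hs
  rw [Measure.map_apply (continuous_sphMap R).measurable hs,
    Measure.toSphere_apply' _ ((continuous_sphMap R).measurable hs), Measure.toSphere_apply' _ hs]
  congr 1
  have : Ioo (0 : ℝ) 1 • ((↑) '' (sphMap R ⁻¹' s) : Set E3)
      = R ⁻¹' (Ioo (0 : ℝ) 1 • ((↑) '' s : Set E3)) := by
    ext x
    simp only [mem_preimage, Set.mem_smul, mem_image]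
    constructor
    · rintro ⟨r, hr, y, ⟨om, hom, rfl⟩, rfl⟩
      exact ⟨r, hr, _, ⟨sphMap R om, hom, rfl⟩, by simp⟩
    · rintro ⟨r, hr, y, ⟨om, hom, rfl⟩, h⟩
      refine ⟨r, hr, _, ⟨sphMap R.symm om, ?_, rfl⟩, ?_⟩
      · have : sphMap R (sphMap R.symm om) = om := Subtype.ext (by simp)
        rwa [this]
      · apply R.injective
        simpa using h
  rw [this]
  exact R.measurePreserving.measure_preimage_emb R.toHomeomorph.measurableEmbedding _

lemma sig_inv (R : E3 ≃ₗᵢ[ℝ] E3) (F : E3 → ℝ≥0∞) (hF : Measurable F) :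
    ∫⁻ om : S2, F (R om) ∂sig = ∫⁻ om : S2, F om ∂sig :=
  (measurePreserving_sphMap R).lintegral_comp (f := fun om : S2 => F om)
    (hF.comp measurable_subtype_coe)

/-- The standard basis vectors. -/
noncomputable def ee (i : Fin 3) : E3 := EuclideanSpace.single i 1

lemma norm_ee (i : Fin 3) : ‖ee i‖ = 1 := by simp [ee]

lemma inner_ee {i j : Fin 3} (h : i ≠ j) : ⟪ee i, ee j⟫ = 0 := by
  simp [ee, EuclideanSpace.inner_single_left, h]

lemma coords_mp : MeasurePreserving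
    (fun p : ℝ × (ℝ × ℝ) => p.1 • ee 0 + (p.2.1 • ee 1 + p.2.2 • ee 2)) volume volume := by
  have h1 := PiLp.volume_preserving_toLp (Fin 3)
  have h2 := (volume_preserving_piFinSuccAbove (fun _ : Fin 3 => ℝ) 0).symm
  have h3 := (MeasurePreserving.id (volume : Measure ℝ)).prod (volume_preserving_finTwoArrow ℝ).symm
  have h4 := h1.comp (h2.comp h3)
  have h5 : (fun p : ℝ × (ℝ × ℝ) => p.1 • ee 0 + (p.2.1 • ee 1 + p.2.2 • ee 2))
      = WithLp.toLp 2 ∘ ⇑(MeasurableEquiv.piFinSuccAbove (fun _ : Fin 3 => ℝ) 0).symm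
        ∘ Prod.map id ⇑(MeasurableEquiv.finTwoArrow (α := ℝ)).symm := by
    funext p
    ext i
    fin_cases i <;> simp [ee, MeasurableEquiv.finTwoArrow, MeasurableEquiv.piFinSuccAbove]
  rw [h5]
  exact h4

/-- Coordinates adapted to a unit vector. -/
lemma split {om : E3} (h : ‖om‖ = 1) : ∃ a b : E3, ‖a‖ = 1 ∧ ‖b‖ = 1 ∧ ⟪a, om⟫ = 0 ∧ ⟪b, om⟫ = 0 ∧
    ⟪a, b⟫ = 0 ∧ MeasurePreserving
      (fun p : ℝ × (ℝ × ℝ) => p.1 • om + (p.2.1 • a + p.2.2 • b)) volume volume := by
  obtain ⟨R, hR⟩ := exists_rot ((norm_ee 0).trans h.symm)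
  refine ⟨R (ee 1), R (ee 2), by simp [norm_ee], by simp [norm_ee], ?_, ?_, ?_, ?_⟩
  · rw [← hR, R.inner_map_map]; exact inner_ee (by decide)
  · rw [← hR, R.inner_map_map]; exact inner_ee (by decide)
  · rw [R.inner_map_map]; exact inner_ee (by decide)
  · have h5 : (fun p : ℝ × (ℝ × ℝ) => p.1 • om + (p.2.1 • R (ee 1) + p.2.2 • R (ee 2)))
        = R ∘ (fun p : ℝ × (ℝ × ℝ) => p.1 • ee 0 + (p.2.1 • ee 1 + p.2.2 • ee 2)) := by
      funext p
      simp [hR]
    rw [h5]
    exact R.measurePreserving.comp coords_mp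

lemma plane_radial (T : ℝ → ℝ≥0∞) (hT : Measurable T) :
    ∫⁻ y : ℝ × ℝ, T (√(y.1 ^ 2 + y.2 ^ 2))
      = ∫⁻ r in Ioi (0 : ℝ), ENNReal.ofReal (2 * Real.pi * r) * T r := by
  rw [← lintegral_comp_polarCoord_symm, polarCoord_target, Measure.volume_eq_prod,
    ← Measure.prod_restrict, lintegral_prod]
  · refine setLIntegral_congr_fun measurableSet_Ioi fun r hr => ?_
    have hr' : 0 < r := hr
    have : ∀ t : ℝ, √((r * Real.cos t) ^ 2 + (r * Real.sin t) ^ 2) = r := by
      intro t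
      rw [mul_pow, mul_pow, ← mul_add, Real.cos_sq_add_sin_sq, mul_one, Real.sqrt_sq hr'.le]
    simp only [polarCoord_symm_apply, this, smul_eq_mul, lintegral_const, Measure.restrict_apply,
      MeasurableSet.univ, univ_inter, Real.volume_Ioo]
    rw [mul_right_comm, ← ENNReal.ofReal_mul hr'.le]
    congr 2
    ring
  · apply Measurable.aemeasurable
    simp only [polarCoord_symm_apply, smul_eq_mul]
    refine Measurable.mul (by fun_prop) (hT.comp (by fun_prop))

/-- The component orthogonal to `om`. -/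
noncomputable def perp (om u : E3) : E3 := u - ⟪u, om⟫ • om

lemma continuous_perp : Continuous (fun p : E3 × E3 => perp p.1 p.2) := by
  unfold perp; fun_prop

lemma inner_coords {om a b : E3} (h : ‖om‖ = 1) (ha : ⟪a, om⟫ = 0) (hb : ⟪b, om⟫ = 0)
    (x y z : ℝ) : ⟪x • om + (y • a + z • b), om⟫ = x := by
  simp [inner_add_left, inner_smul_left, ha, hb, h]

lemma perp_coords {om a b : E3} (h : ‖om‖ = 1) (ha : ⟪a, om⟫ = 0) (hb : ⟪b, om⟫ = 0)
    (x y z : ℝ) : perp om (x • om + (y • a + z • b)) = y • a + z • b := by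
  rw [perp, inner_coords h ha hb]; abel

lemma norm_plane {a b : E3} (ha : ‖a‖ = 1) (hb : ‖b‖ = 1) (hab : ⟪a, b⟫ = 0) (y z : ℝ) :
    ‖y • a + z • b‖ = √(y ^ 2 + z ^ 2) := by
  rw [← Real.sqrt_sq (norm_nonneg (y • a + z • b)), norm_add_sq_real]
  simp [norm_smul, ha, hb, inner_smul_left, inner_smul_right, hab]

lemma norm_sq_eq_perp {om : E3} (h : ‖om‖ = 1) (u : E3) :
    ‖u‖ ^ 2 = ⟪u, om⟫ ^ 2 + ‖perp om u‖ ^ 2 := by
  rw [perp, norm_sub_sq_real, inner_smul_right, norm_smul, h]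
  simp only [Real.norm_eq_abs, mul_one, sq_abs]
  ring

/-- Cylinder coordinates around a unit vector. -/
lemma cyl {om : E3} (h : ‖om‖ = 1) (Φ : ℝ → ℝ → ℝ≥0∞) (hΦ : Measurable (Function.uncurry Φ)) :
    ∫⁻ u : E3, Φ ⟪u, om⟫ ‖perp om u‖
      = ∫⁻ t : ℝ, ∫⁻ r in Ioi (0 : ℝ), ENNReal.ofReal (2 * Real.pi * r) * Φ t r := by
  obtain ⟨a, b, ha, hb, hao, hbo, hab, hmp⟩ := split h
  have hm : Measurable (fun u : E3 => Φ ⟪u, om⟫ ‖perp om u‖) := by
    have : Measurable (fun u : E3 => ((⟪u, om⟫, ‖perp om u‖) : ℝ × ℝ)) := by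
      unfold perp; fun_prop
    exact hΦ.comp this
  rw [← hmp.lintegral_comp hm, Measure.volume_eq_prod]
  refine (lintegral_prod _ (hm.comp hmp.measurable).aemeasurable).trans ?_
  refine lintegral_congr fun t => ?_
  simp only [Function.comp, inner_coords h hao hbo, perp_coords h hao hbo, norm_plane ha hb hab]
  exact plane_radial (Φ t) (hΦ.comp measurable_prodMk_left)

lemma lint_sq_unit : ∫⁻ r in Ioi (0 : ℝ), ENNReal.ofReal (r ^ 2) * (Iio (1 : ℝ)).indicator 1 r
    = ENNReal.ofReal (1 / 3) := by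
  have h1 : ∫⁻ r in Ioi (0 : ℝ), ENNReal.ofReal (r ^ 2) * (Iio (1 : ℝ)).indicator 1 r
      = ∫⁻ r in Ioo (0 : ℝ) 1, ENNReal.ofReal (r ^ 2) := by
    rw [← Ioi_inter_Iio, inter_comm, ← Measure.restrict_restrict measurableSet_Iio,
      ← lintegral_indicator measurableSet_Iio]
    refine lintegral_congr fun r => ?_
    by_cases hr : r ∈ Iio (1 : ℝ) <;> simp [hr]
  rw [h1, Measure.restrict_congr_set Ioo_ae_eq_Ioc, ← ofReal_integral_eq_lintegral_ofReal
    (intervalIntegral.intervalIntegrable_pow (n := 2)).1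
    (Filter.Eventually.of_forall fun r => sq_nonneg r), ← intervalIntegral.integral_of_le zero_le_one,
    integral_pow]
  norm_num

lemma lint_cos (f : ℝ → ℝ≥0∞) :
    ∫⁻ t in Ioo (0 : ℝ) Real.pi, ENNReal.ofReal (Real.sin t) * f (Real.cos t)
      = ∫⁻ t in Ioo (-1 : ℝ) 1, f t := by
  have himg : Real.cos '' Ioo (0 : ℝ) Real.pi = Ioo (-1 : ℝ) 1 := by
    ext x
    constructor
    · rintro ⟨t, ht, rfl⟩
      constructor
      · rw [← Real.cos_pi]
        exact Real.cos_lt_cos_of_nonneg_of_le_pi ht.1.le le_rfl ht.2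
      · rw [← Real.cos_zero]
        exact Real.cos_lt_cos_of_nonneg_of_le_pi le_rfl ht.2.le ht.1
    · intro hx
      exact ⟨Real.arccos x, ⟨Real.arccos_pos.2 hx.2, Real.arccos_lt_pi.2 hx.1⟩,
        Real.cos_arccos hx.1.le hx.2.le⟩
  rw [← himg, lintegral_image_eq_lintegral_abs_deriv_mul measurableSet_Ioo
    (fun t _ => (Real.hasDerivAt_cos t).hasDerivWithinAt)
    (Real.injOn_cos.mono Ioo_subset_Icc_self)]
  refine setLIntegral_congr_fun measurableSet_Ioo fun t ht => ?_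
  simp only [abs_neg, abs_of_nonneg (Real.sin_nonneg_of_nonneg_of_le_pi ht.1.le ht.2.le)]

/-- The hat-box formula. -/
lemma archimedes_unit {e : E3} (he : ‖e‖ = 1) (f : ℝ → ℝ≥0∞) (hf : Measurable f) :
    ∫⁻ om : S2, f ⟪e, (om : E3)⟫ ∂sig
      = ENNReal.ofReal (2 * Real.pi) * ∫⁻ t in Ioo (-1 : ℝ) 1, f t := by
  set Φ : ℝ → ℝ → ℝ≥0∞ := fun t r =>
    (Iio (1 : ℝ)).indicator 1 (√(t ^ 2 + r ^ 2)) * f (t / √(t ^ 2 + r ^ 2)) with hΦdef
  have hind : Measurable ((Iio (1 : ℝ)).indicator (1 : ℝ → ℝ≥0∞)) :=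
    measurable_one.indicator measurableSet_Iio
  have hΦ : Measurable (Function.uncurry Φ) := by
    refine Measurable.mul (hind.comp (by fun_prop)) (hf.comp (by fun_prop))
  have hsq : Measurable (fun r : ℝ =>
      ENNReal.ofReal (r ^ 2) * (Iio (1 : ℝ)).indicator (1 : ℝ → ℝ≥0∞) r) :=
    Measurable.mul (by fun_prop) hind
  have h1 := cyl he Φ hΦ
  have hnorm : ∀ u : E3, √(⟪u, e⟫ ^ 2 + ‖perp e u‖ ^ 2) = ‖u‖ := fun u => by
    rw [← norm_sq_eq_perp he, Real.sqrt_sq (norm_nonneg u)]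
  have hfm : Measurable (fun om : S2 => f ⟪e, (om : E3)⟫) := hf.comp (by fun_prop)
  have h2 : ∫⁻ u : E3, Φ ⟪u, e⟫ ‖perp e u‖
      = ENNReal.ofReal (1 / 3) * ∫⁻ om : S2, f ⟪e, (om : E3)⟫ ∂sig := by
    simp only [hΦdef, hnorm]
    have hmm : Measurable (fun u : E3 =>
        (Iio (1 : ℝ)).indicator (1 : ℝ → ℝ≥0∞) ‖u‖ * f (⟪u, e⟫ / ‖u‖)) :=
      Measurable.mul (hind.comp (by fun_prop)) (hf.comp (by fun_prop))
    rw [polar _ hmm, ← lintegral_const_mul _ hfm]
    refine lintegral_congr fun om => ?_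
    rw [← lint_sq_unit, ← lintegral_mul_const _ hsq]
    refine setLIntegral_congr_fun measurableSet_Ioi fun r hr => ?_
    have hr' : 0 < r := hr
    simp only [norm_smul, norm_S2, Real.norm_eq_abs, abs_of_pos hr', mul_one, inner_smul_left,
      RCLike.conj_to_real, mul_div_cancel_left₀ _ hr'.ne', real_inner_comm, mul_assoc]
  have hG : Measurable (fun p : ℝ × ℝ => ENNReal.ofReal (2 * Real.pi * p.2) * Φ p.1 p.2) :=
    Measurable.mul (by fun_prop) hΦ
  have h3 : ∫⁻ t : ℝ, ∫⁻ r in Ioi (0 : ℝ), ENNReal.ofReal (2 * Real.pi * r) * Φ t r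
      = ∫⁻ p : ℝ × ℝ, ENNReal.ofReal (2 * Real.pi * p.2) * Φ p.1 p.2 := by
    rw [Measure.volume_eq_prod, lintegral_prod _ hG.aemeasurable]
    refine lintegral_congr fun t => ?_
    rw [← lintegral_indicator measurableSet_Ioi]
    refine lintegral_congr fun r => ?_
    by_cases hr : r ∈ Ioi (0 : ℝ)
    · simp [hr]
    · have : 2 * Real.pi * r ≤ 0 :=
        mul_nonpos_of_nonneg_of_nonpos (by positivity) (not_lt.1 hr)
      simp [hr, ENNReal.ofReal_of_nonpos this]
  have h4 : ∫⁻ p : ℝ × ℝ, ENNReal.ofReal (2 * Real.pi * p.2) * Φ p.1 p.2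
      = ENNReal.ofReal (1 / 3) * (ENNReal.ofReal (2 * Real.pi) * ∫⁻ t in Ioo (-1 : ℝ) 1, f t) := by
    have hsc : Measurable (fun t : ℝ => ENNReal.ofReal (Real.sin t) * f (Real.cos t)) :=
      Measurable.mul (by fun_prop) (hf.comp (by fun_prop))
    have h5 : ∫⁻ t in Ioo (-Real.pi) Real.pi, ENNReal.ofReal (Real.sin t) * f (Real.cos t)
        = ∫⁻ t in Ioo (-1 : ℝ) 1, f t := by
      rw [← lint_cos, ← lintegral_indicator measurableSet_Ioo,
        ← lintegral_indicator measurableSet_Ioo]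
      refine lintegral_congr fun t => ?_
      by_cases ht : t ∈ Ioo (0 : ℝ) Real.pi
      · have : t ∈ Ioo (-Real.pi) Real.pi := ⟨by linarith [ht.1, Real.pi_pos], ht.2⟩
        simp [ht, this]
      · by_cases ht2 : t ∈ Ioo (-Real.pi) Real.pi
        · have h0 : t ≤ 0 := by
            by_contra hc
            exact ht ⟨not_le.1 hc, ht2.2⟩
          have := Real.sin_nonpos_of_nonpos_of_neg_pi_le h0 ht2.1.le
          simp [ht, ht2, ENNReal.ofReal_of_nonpos this]
        · simp [ht, ht2]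
    rw [← lintegral_comp_polarCoord_symm, polarCoord_target, Measure.volume_eq_prod,
      ← Measure.prod_restrict, lintegral_prod, ← lint_sq_unit,
      ← lintegral_mul_const _ hsq]
    · refine setLIntegral_congr_fun measurableSet_Ioi fun r hr => ?_
      have hr' : 0 < r := hr
      have : ∀ t : ℝ, √((r * Real.cos t) ^ 2 + (r * Real.sin t) ^ 2) = r := by
        intro t
        rw [mul_pow, mul_pow, ← mul_add, Real.cos_sq_add_sin_sq, mul_one, Real.sqrt_sq hr'.le]
      simp only [polarCoord_symm_apply, hΦdef, this, smul_eq_mul,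
        mul_div_cancel_left₀ _ hr'.ne']
      rw [← h5, ← lintegral_const_mul _ hsc, ← lintegral_const_mul _ (hsc.const_mul _)]
      refine lintegral_congr fun t => ?_
      rw [show 2 * Real.pi * (r * Real.sin t) = r * (2 * Real.pi * Real.sin t) by ring,
        ENNReal.ofReal_mul hr'.le, ENNReal.ofReal_mul (by positivity), sq,
        ENNReal.ofReal_mul hr'.le]
      ring
    · apply Measurable.aemeasurable
      simp only [smul_eq_mul]
      exact Measurable.mul (by fun_prop) (hG.comp continuous_polarCoord_symm.measurable)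
  rw [h2, h3, h4] at h1
  exact (ENNReal.mul_right_inj (by simp) ENNReal.ofReal_ne_top).1 h1

/-- The hat-box formula for a vector of any length. -/
lemma archimedes {u : E3} (hu : u ≠ 0) (f : ℝ → ℝ≥0∞) (hf : Measurable f) :
    ∫⁻ om : S2, f ⟪u, (om : E3)⟫ ∂sig
      = ENNReal.ofReal (2 * Real.pi / ‖u‖) * ∫⁻ t in Ioo (-‖u‖) ‖u‖, f t := by
  have hn : 0 < ‖u‖ := norm_pos_iff.2 hu
  have he : ‖‖u‖⁻¹ • u‖ = 1 := by rw [norm_smul]; simp [hn.ne']
  have h1 := archimedes_unit he (fun t => f (‖u‖ * t)) (hf.comp (by fun_prop))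
  simp only [inner_smul_left, RCLike.conj_to_real, mul_inv_cancel_left₀ hn.ne'] at h1
  rw [h1]
  have himg : (fun t : ℝ => ‖u‖ * t) '' Ioo (-1 : ℝ) 1 = Ioo (-‖u‖) ‖u‖ := by
    rw [image_mul_left_Ioo hn]; simp
  have hm : Measurable (fun t : ℝ => f (‖u‖ * t)) := hf.comp (by fun_prop)
  rw [← himg, lintegral_image_eq_lintegral_abs_deriv_mul measurableSet_Ioo
    (f' := fun _ => ‖u‖) (fun t _ => by simpa using ((hasDerivAt_id t).const_mul ‖u‖).hasDerivWithinAt)
    (fun a _ b _ hab => mul_left_cancel₀ hn.ne' hab),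
    lintegral_const_mul _ hm, ← mul_assoc,
    ← ENNReal.ofReal_mul (by positivity), abs_of_pos hn, div_mul_cancel₀ _ hn.ne']

end Pool.Agent.MP_187b32_an.Geo
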